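import Pool.Agent.Q27.CD.Wr

/-!
# Lattices which avoid a given finite set of vectors
-/

set_option autoImplicit false

namespace Q27.CD

open Finset Polynomial

theorem coeff_sum {M n : ℕ} (a : Fin n → ZMod M) (s : Fin n) :
    (∑ t : Fin n, C (a t) * X ^ (t : ℕ) : (ZMod M)[X]).coeff s = a s := by
  rw [finsetSum_coeff, sum_eq_single s]
  · rw [coeff_C_mul_X_pow, if_pos rfl]
  · intro t _ ht
    rw [coeff_C_mul_X_pow, if_neg]
    intro h
    exact ht (Fin.ext h.symm)
  · intro h
    exact absurd (mem_univ s) h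

/-- Few nonzero vectors are simultaneously not orthogonal to some `(1, x, x², …)`. -/
theorem good_point {M n : ℕ} (hM : M.Prime) {ι : Type*} (V : Finset ι) (a : ι → Fin n → ZMod M)
    (hV : ∀ v ∈ V, a v ≠ 0) (hc : V.card * n < M) :
    ∃ x : ZMod M, ∀ v ∈ V, ∑ t : Fin n, a v t * x ^ (t : ℕ) ≠ 0 := by
  have : Fact M.Prime := ⟨hM⟩
  set P : ι → (ZMod M)[X] := fun v => ∑ t : Fin n, C (a v t) * X ^ (t : ℕ) with hP
  have hP0 : ∀ v ∈ V, P v ≠ 0 := by
    intro v hv h0
    apply hV v hv
    funext s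
    have h1 := coeff_sum (a v) s
    rw [hP] at h0
    simp only at h0
    rw [h0, coeff_zero] at h1
    exact h1.symm
  have hdeg : ∀ v ∈ V, (P v).natDegree ≤ n := by
    intro v _
    apply natDegree_sum_le_of_forall_le
    intro t _
    refine (natDegree_C_mul_X_pow_le _ _).trans t.isLt.le
  have hQ : ∏ v ∈ V, P v ≠ 0 := prod_ne_zero_iff.2 hP0
  have hQd : (∏ v ∈ V, P v).natDegree < Nat.card (ZMod M) := by
    rw [Nat.card_zmod]
    refine lt_of_le_of_lt ?_ hc
    refine (natDegree_prod_le _ _).trans ?_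
    refine (sum_le_sum hdeg).trans ?_
    rw [sum_const, smul_eq_mul]
  obtain ⟨x, hx⟩ : ∃ x : ZMod M, (∏ v ∈ V, P v).eval x ≠ 0 := by
    by_contra hcon
    push Not at hcon
    apply hQ
    apply Polynomial.eq_zero_of_natDegree_lt_card_of_eval_eq_zero' _ (univ : Finset (ZMod M))
      (fun x _ => hcon x)
    rw [card_univ, ZMod.card]
    rwa [Nat.card_zmod] at hQd
  refine ⟨x, fun v hv h0 => hx ?_⟩
  rw [eval_prod]
  apply prod_eq_zero hv
  rw [hP]
  simp only [eval_finsetSum, eval_mul, eval_C, eval_pow, eval_X]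
  exact h0

/-- The kernel of a homomorphism to a finite group. -/
theorem ker_card {A B : Type*} [AddCommGroup A] [AddCommGroup B] [Finite B] (φ : A →+ B) :
    Finite (A ⧸ φ.ker) ∧ Nat.card (A ⧸ φ.ker) ≤ Nat.card B := by
  have hinj := QuotientAddGroup.kerLift_injective φ
  exact ⟨Finite.of_injective _ hinj, Nat.card_le_card_of_injective _ hinj⟩

/-- The hash function `v ↦ ∑ a_t(v) x^t` for additive functions `a_t`. -/
def hash {A : Type*} [AddCommGroup A] {M n : ℕ} (a : Fin n → A →+ ℤ) (x : ZMod M) : A →+ ZMod M where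
  toFun v := ∑ t : Fin n, ((a t v : ℤ) : ZMod M) * x ^ (t : ℕ)
  map_zero' := by simp
  map_add' v w := by
    rw [← sum_add_distrib]
    apply sum_congr rfl
    intro t _
    rw [map_add, Int.cast_add, add_mul]

theorem exists_hash {A : Type*} [AddCommGroup A] {M n : ℕ} (hM : M.Prime) (a : Fin n → A →+ ℤ)
    (V : Finset A) (hb : ∀ v ∈ V, ∀ t, |a t v| < M) (hc : V.card * n < M) :
    ∃ x : ZMod M, ∀ v ∈ V, hash a x v = 0 → ∀ t, a t v = 0 := by
  classical
  obtain ⟨x, hx⟩ := good_point hM (V.filter fun v => (fun t => ((a t v : ℤ) : ZMod M)) ≠ 0)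
    (fun v t => ((a t v : ℤ) : ZMod M)) (fun v hv => (mem_filter.1 hv).2)
    (lt_of_le_of_lt (Nat.mul_le_mul_right n (card_filter_le _ _)) hc)
  refine ⟨x, fun v hv h0 => ?_⟩
  by_cases hz : (fun t => ((a t v : ℤ) : ZMod M)) = 0
  · intro t
    have h1 := congrFun hz t
    simp only [Pi.zero_apply] at h1
    rw [ZMod.intCast_zmod_eq_zero_iff_dvd] at h1
    exact Int.eq_zero_of_abs_lt_dvd h1 (hb v hv t)
  · exact absurd h0 (hx v (mem_filter.2 ⟨hv, hz⟩))

/-- The coordinates. -/
def coord {k : ℕ} (i : Fin k) : (Fin k → ℤ) →+ ℤ := Pi.evalAddMonoidHom _ i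

/-- The minors of the matrix with rows `v` and `b`. -/
def minor {k : ℕ} (b : Fin k → ℤ) (i j : Fin k) : (Fin k → ℤ) →+ ℤ where
  toFun v := v i * b j - v j * b i
  map_zero' := by simp
  map_add' v w := by
    simp only [Pi.add_apply]
    ring

theorem minor_apply {k : ℕ} (b : Fin k → ℤ) (i j : Fin k) (v : Fin k → ℤ) :
    minor b i j v = v i * b j - v j * b i := rfl

/-- There is a lattice of index at most `C ρ³` which contains `b` and meets `V` only in multiples
of `b`. -/
theorem exists_thin {k ρ c : ℕ} (hρ : 0 < ρ) (hc : 0 < c) (b : Fin k → ℤ) (hb : Box ρ b)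
    (V : Finset (Fin k → ℤ)) (hV : ∀ v ∈ V, Box (c * ρ) v) (hcard : V.card ≤ c * ρ ^ 2) :
    ∃ L : AddSubgroup (Fin k → ℤ), b ∈ L ∧ (∀ v ∈ V, v ∈ L → ∃ t : ℤ, v = t • b) ∧
      Finite ((Fin k → ℤ) ⧸ L) ∧
      Nat.card ((Fin k → ℤ) ⧸ L) ≤ (2 * (c * (k ^ 2 + k + 2) + 1)) * ρ ^ 3 := by
  set T : ℕ := (c * (k ^ 2 + k + 2) + 1) * ρ ^ 2 with hT
  have hTpos : T ≠ 0 := by positivity
  obtain ⟨M, hM, hM1, hM2⟩ := Nat.exists_prime_lt_and_le_two_mul T hTpos
  have : NeZero M := ⟨hM.ne_zero⟩
  have hρ2 : ρ ≤ ρ ^ 2 := Nat.le_self_pow (by norm_num) ρ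
  by_cases hb0 : b = 0
  · obtain ⟨x, hx⟩ := exists_hash hM (fun i : Fin k => coord i) V (by
      intro v hv t
      have h1 := hV v hv t
      have h2 : (c * ρ : ℕ) < M := by
        refine lt_of_le_of_lt ?_ hM1
        rw [hT]
        calc c * ρ ≤ c * ρ ^ 2 := Nat.mul_le_mul_left c hρ2
          _ ≤ _ := Nat.mul_le_mul_right _ (by nlinarith [Nat.zero_le (c * (k ^ 2 + k))])
      exact lt_of_le_of_lt h1 (by exact_mod_cast h2)) (by
      refine lt_of_le_of_lt ?_ hM1
      rw [hT]
      calc V.card * k ≤ (c * ρ ^ 2) * k := Nat.mul_le_mul_right k hcard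
        _ = (c * k) * ρ ^ 2 := by ring
        _ ≤ _ := Nat.mul_le_mul_right _ (by nlinarith [Nat.zero_le (c * (k ^ 2))]))
    obtain ⟨h1, h2⟩ := ker_card (hash (fun i : Fin k => coord i) x)
    refine ⟨(hash (fun i : Fin k => coord i) x).ker, ?_, ?_, h1, h2.trans ?_⟩
    · rw [hb0]; exact zero_mem _
    · intro v hv hvL
      refine ⟨0, ?_⟩
      rw [zero_smul]
      funext i
      exact hx v hv hvL i
    · rw [Nat.card_zmod]
      refine hM2.trans ?_
      rw [hT]
      calc 2 * ((c * (k ^ 2 + k + 2) + 1) * ρ ^ 2)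
          = (2 * (c * (k ^ 2 + k + 2) + 1)) * ρ ^ 2 := by ring
        _ ≤ _ := Nat.mul_le_mul_left _ (Nat.pow_le_pow_right hρ (by norm_num))
  · -- `b = d b₀`
    obtain ⟨d, b₀, u, hd0, hdb, hu⟩ : ∃ (d : ℤ) (b₀ u : Fin k → ℤ), d ≠ 0 ∧ (∀ i, b i = d * b₀ i) ∧
        ∑ i, u i * b₀ i = 1 := by
      set I : Ideal ℤ := Ideal.span (Set.range b) with hI
      set d : ℤ := Submodule.IsPrincipal.generator I with hd
      have h1 : ∀ i, d ∣ b i := by
        intro i
        rw [← Submodule.IsPrincipal.mem_iff_generator_dvd]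
        exact Ideal.subset_span ⟨i, rfl⟩
      choose b₀ hb₀ using h1
      have h2 : d ∈ I := Submodule.IsPrincipal.generator_mem I
      rw [hI, Ideal.mem_span_range_iff_exists_fun] at h2
      obtain ⟨u, hu⟩ := h2
      have hd0 : d ≠ 0 := by
        intro h
        apply hb0
        funext i
        rw [hb₀ i, h, zero_mul]
        rfl
      refine ⟨d, b₀, u, hd0, hb₀, ?_⟩
      apply mul_left_cancel₀ hd0
      rw [mul_sum, mul_one, ← hu]
      apply sum_congr rfl
      intro i _
      rw [hu]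
      conv_rhs => rw [hb₀ i]
      ring
    have hn : NeZero d.natAbs := ⟨Int.natAbs_ne_zero.2 hd0⟩
    have hbb : Box ρ b₀ := by
      intro i
      have h1 := hb i
      rw [hdb i, abs_mul] at h1
      have h2 : 1 ≤ |d| := Int.one_le_abs hd0
      have h3 := abs_nonneg (b₀ i)
      nlinarith
    have hdρ : d.natAbs ≤ ρ := by
      obtain ⟨i, hi⟩ : ∃ i, b₀ i ≠ 0 := by
        by_contra hcon
        push Not at hcon
        rw [sum_eq_zero (fun i _ => by rw [hcon i, mul_zero])] at hu
        exact absurd hu (by norm_num)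
      have h1 := hb i
      rw [hdb i, abs_mul] at h1
      have h2 : 1 ≤ |b₀ i| := Int.one_le_abs hi
      have h3 := abs_nonneg d
      have h4 : |d| ≤ ρ := by nlinarith
      rw [Int.abs_eq_natAbs] at h4
      exact_mod_cast h4
    set a : Fin (k * k) → (Fin k → ℤ) →+ ℤ := fun t =>
      minor b₀ (finProdFinEquiv.symm t).1 (finProdFinEquiv.symm t).2 with ha
    obtain ⟨x, hx⟩ := exists_hash hM a V (by
      intro v hv t
      have h1 := hV v hv
      have h2 : (2 * c * ρ ^ 2 : ℕ) < M := by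
        refine lt_of_le_of_lt ?_ hM1
        rw [hT]
        exact Nat.mul_le_mul_right _ (by nlinarith [Nat.zero_le (c * (k ^ 2 + k))])
      refine lt_of_le_of_lt ?_ (by exact_mod_cast h2 : ((2 * c * ρ ^ 2 : ℕ) : ℤ) < (M : ℤ))
      rw [ha]
      simp only
      rw [minor_apply]
      refine (abs_sub _ _).trans ?_
      rw [abs_mul, abs_mul]
      have e : ((2 * c * ρ ^ 2 : ℕ) : ℤ) = (c * ρ : ℕ) * (ρ : ℕ) + (c * ρ : ℕ) * (ρ : ℕ) := by
        push_cast
        ring
      rw [e]
      exact add_le_add (mul_le_mul (h1 _) (hbb _) (abs_nonneg _) (by positivity))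
        (mul_le_mul (h1 _) (hbb _) (abs_nonneg _) (by positivity))) (by
      refine lt_of_le_of_lt ?_ hM1
      rw [hT]
      calc V.card * (k * k) ≤ (c * ρ ^ 2) * (k * k) := Nat.mul_le_mul_right _ hcard
        _ = (c * k ^ 2) * ρ ^ 2 := by ring
        _ ≤ _ := Nat.mul_le_mul_right _ (by nlinarith [Nat.zero_le (c * k)]))
    set τ : (Fin k → ℤ) →+ ZMod d.natAbs :=
      { toFun := fun v => ((∑ i, u i * v i : ℤ) : ZMod d.natAbs)
        map_zero' := by simp
        map_add' := fun v w => by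
          rw [← Int.cast_add, ← sum_add_distrib]
          congr 1
          apply sum_congr rfl
          intro i _
          rw [Pi.add_apply, mul_add] } with hτ
    set φ : (Fin k → ℤ) →+ ZMod M × ZMod d.natAbs := (hash a x).prod τ with hφ
    obtain ⟨h1, h2⟩ := ker_card φ
    refine ⟨φ.ker, ?_, ?_, h1, h2.trans ?_⟩
    · rw [AddMonoidHom.mem_ker]
      apply Prod.ext
      · change ∑ t : Fin (k * k), ((a t b : ℤ) : ZMod M) * x ^ (t : ℕ) = 0
        apply sum_eq_zero
        intro t _
        have e : a t b = 0 := by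
          rw [ha]
          simp only
          rw [minor_apply, hdb, hdb]
          ring
        rw [e, Int.cast_zero, zero_mul]
      · change ((∑ i, u i * b i : ℤ) : ZMod d.natAbs) = 0
        rw [ZMod.intCast_zmod_eq_zero_iff_dvd]
        have e : ∑ i, u i * b i = d := by
          calc ∑ i, u i * b i = ∑ i, d * (u i * b₀ i) := by
                apply sum_congr rfl
                intro i _
                rw [hdb i]
                ring
            _ = d := by rw [← mul_sum, hu, mul_one]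
        rw [e, Int.natCast_natAbs]
        exact (abs_dvd_self d)
    · intro v hv hvL
      rw [AddMonoidHom.mem_ker] at hvL
      have e1 : hash a x v = 0 := congrArg Prod.fst hvL
      have e2 : ((∑ i, u i * v i : ℤ) : ZMod d.natAbs) = 0 := congrArg Prod.snd hvL
      have h3 := hx v hv e1
      have h4 : ∀ i j, v i * b₀ j - v j * b₀ i = 0 := by
        intro i j
        have h5 := h3 (finProdFinEquiv (i, j))
        rw [ha] at h5
        simp only [Equiv.symm_apply_apply] at h5
        exact h5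
      rw [ZMod.intCast_zmod_eq_zero_iff_dvd] at e2
      have e3 : d ∣ ∑ i, u i * v i := Int.natAbs_dvd.1 e2
      obtain ⟨t, ht⟩ := e3
      refine ⟨t, ?_⟩
      funext i
      rw [Pi.smul_apply, smul_eq_mul, hdb i]
      have e4 : v i = (∑ j, u j * v j) * b₀ i := by
        calc v i = (∑ j, u j * b₀ j) * v i := by rw [hu, one_mul]
          _ = ∑ j, u j * (v i * b₀ j) := by
              rw [sum_mul]
              apply sum_congr rfl
              intro j _
              ring
          _ = ∑ j, u j * (v j * b₀ i) := by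
              apply sum_congr rfl
              intro j _
              rw [sub_eq_zero.1 (h4 i j)]
          _ = _ := by
              rw [sum_mul]
              apply sum_congr rfl
              intro j _
              ring
      rw [e4, ht]
      ring
    · rw [Nat.card_prod, Nat.card_zmod, Nat.card_zmod]
      calc M * d.natAbs ≤ (2 * T) * ρ := Nat.mul_le_mul hM2 hdρ
        _ = _ := by rw [hT]; ring

end Q27.CD
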