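import Pool.Agent.Q27.CD.Wr

/-!
# Finite quotients of `R ≀ ℤ^k` which distinguish conjugacy classes
-/

set_option autoImplicit false

namespace Q27.CD

open Finset

theorem core {R R' : Type*} [AddCommGroup R] [AddCommGroup R'] (N : Norm' R) {k ρ : ℕ}
    (hρ : 0 < ρ) (r : R →+ R') (hr : ∀ a, N.ν a ≤ 2 * ρ → r a = 0 → a = 0)
    {x y : Wr R (Fin k → ℤ)} (hx : Bd N ρ x) (hy : Bd N ρ y) (hxy : ¬ IsConj x y) :
    ∃ L : AddSubgroup (Fin k → ℤ), Finite ((Fin k → ℤ) ⧸ L) ∧
      Nat.card ((Fin k → ℤ) ⧸ L) ≤ (13 * ρ) ^ k ∧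
      ¬ IsConj (wrMap (QuotientAddGroup.mk' L) r x) (wrMap (QuotientAddGroup.mk' L) r y) := by
  classical
  by_cases hpos : x.pos = y.pos
  · obtain ⟨L, hbL, hL, hfin, hcard⟩ := exists_lattice ρ hρ x.pos hx.pos
    refine ⟨L, hfin, hcard, fun hc => hxy ?_⟩
    set π := QuotientAddGroup.mk' L with hπ
    have hx0 : (wrMap π r x).pos = 0 := (QuotientAddGroup.eq_zero_iff _).2 hbL
    obtain ⟨c, hcc⟩ := shift_of_conj hc hx0
    change push π r y.lamp = shift c (push π r x.lamp) at hcc
    -- a small lift of the shift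
    have hlift : ∃ c' : Fin k → ℤ, Box (2 * ρ) c' ∧
        push π r y.lamp = shift (π c') (push π r x.lamp) := by
      by_cases h0 : push π r x.lamp = 0
      · refine ⟨0, fun i => by simp, ?_⟩
        rw [hcc, h0, shift_zero', shift_zero']
      · obtain ⟨q, hq⟩ := Finsupp.support_nonempty_iff.2 h0
        have hsupp : ∀ (f : (Fin k → ℤ) →₀ R) (p : (Fin k → ℤ) ⧸ L),
            p ∈ (push π r f).support → ∃ u ∈ f.support, π u = p := by
          intro f p hp
          have h1 : p ∈ (f.mapDomain π).support := by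
            rw [Finsupp.mem_support_iff] at hp ⊢
            intro h2
            apply hp
            unfold push
            rw [Finsupp.mapRange_apply, h2, map_zero]
          have h2 := Finsupp.mapDomain_support h1
          rw [mem_image] at h2
          exact h2
        obtain ⟨u, hu, hu2⟩ := hsupp _ _ hq
        have h1 : c + q ∈ (push π r y.lamp).support := by
          rw [hcc, Finsupp.mem_support_iff, shift_apply]
          exact Finsupp.mem_support_iff.1 hq
        obtain ⟨u', hu', hu2'⟩ := hsupp _ _ h1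
        refine ⟨u' - u, ?_, ?_⟩
        · rw [two_mul]
          exact (hy.supp _ hu').sub (hx.supp _ hu)
        · rw [hcc]
          congr 1
          rw [map_sub, hu2, hu2', add_sub_cancel_right]
    obtain ⟨c', hc', hcc'⟩ := hlift
    set h := y.lamp - shift c' x.lamp with hh
    have hpush : push π r h = 0 := by
      have h1 : push π r h + push π r (shift c' x.lamp) = push π r y.lamp := by
        rw [← push_add, hh, sub_add_cancel]
      rw [push_shift, ← hcc'] at h1
      exact add_eq_right.1 h1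
    have hsub : h = y.lamp + (-shift c' x.lamp) := by rw [hh, sub_eq_add_neg]
    have hsupp : ∀ v ∈ h.support, Box (3 * ρ) v := by
      intro v hv
      rw [hsub] at hv
      rcases mem_union.1 (Finsupp.support_add hv) with h1 | h1
      · exact (hy.supp v h1).mono (by omega)
      · rw [Finsupp.support_neg] at h1
        have h2 := hc'.add (hx.supp _ (supp_shift h1))
        rw [add_sub_cancel] at h2
        exact h2.mono (by omega)
    have hN : N1 N h ≤ 2 * ρ := by
      rw [hsub]
      refine (N1_add N _ _).trans ?_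
      rw [N1_neg, N1_shift, two_mul]
      exact Nat.add_le_add hy.norm hx.norm
    have hmap : h.mapDomain π = 0 := by
      ext q
      apply hr _ ((nu_mapDomain N π h q).trans hN)
      have h1 := DFunLike.congr_fun hpush q
      unfold push at h1
      rwa [Finsupp.mapRange_apply] at h1
    -- representatives
    set σ : (Fin k → ℤ) ⧸ L → (Fin k → ℤ) := fun q =>
      if hq : ∃ v ∈ h.support, π v = q then hq.choose else 0 with hσ
    have hσ1 : ∀ v ∈ h.support, σ (π v) ∈ h.support ∧ π (σ (π v)) = π v := by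
      intro v hv
      have hq : ∃ v' ∈ h.support, π v' = π v := ⟨v, hv, rfl⟩
      simp only [hσ]
      rw [dif_pos hq]
      exact hq.choose_spec
    have hmem := sub_mapDomain_mem x.pos h (fun v => σ (π v)) (by
      intro v hv
      obtain ⟨h1, h2⟩ := hσ1 v hv
      have h3 : v - σ (π v) ∈ L := by
        have h4 : π (v - σ (π v)) = 0 := by rw [map_sub, h2, sub_self]
        exact (QuotientAddGroup.eq_zero_iff _).1 h4
      obtain ⟨t, ht⟩ := hL _ h3 (((hsupp v hv).sub (hsupp _ h1)).mono (by omega))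
      exact ⟨t, by rw [← ht]; abel⟩)
    have hcomp : h.mapDomain (fun v => σ (π v)) = 0 := by
      have e : (fun v => σ (π v)) = σ ∘ π := rfl
      rw [e, Finsupp.mapDomain_comp, hmap, Finsupp.mapDomain_zero]
    rw [hcomp, sub_zero] at hmem
    obtain ⟨g, hg⟩ := hmem
    exact conj_of hpos c' g hg
  · obtain ⟨L, -, hL, hfin, hcard⟩ := exists_lattice (k := k) ρ hρ 0 (fun i => by simp)
    refine ⟨L, hfin, hcard, fun hc => hpos ?_⟩
    have h1 := conj_pos hc
    change QuotientAddGroup.mk' L x.pos = QuotientAddGroup.mk' L y.pos at h1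
    have h2 : x.pos - y.pos ∈ L := by
      rw [← QuotientAddGroup.eq_zero_iff]
      change QuotientAddGroup.mk' L (x.pos - y.pos) = 0
      rw [map_sub, h1, sub_self]
    obtain ⟨t, ht⟩ := hL _ h2 ((hx.pos.sub hy.pos).mono (by omega))
    rw [smul_zero] at ht
    exact sub_eq_zero.1 ht

/-! ### Finite wreath products -/

theorem card_wr {R Q : Type*} [AddCommGroup R] [AddCommGroup Q] [Finite R] [Finite Q] :
    Finite (Wr R Q) ∧ Nat.card (Wr R Q) = Nat.card R ^ Nat.card Q * Nat.card Q := by
  have e : Wr R Q ≃ (Q → R) × Q :=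
    { toFun := fun x => (x.lamp, x.pos)
      invFun := fun p => ⟨Finsupp.equivFunOnFinite.symm p.1, p.2⟩
      left_inv := fun x => by
        apply Wr.ext
        · simp
        · rfl
      right_inv := fun p => by simp }
  refine ⟨Finite.of_equiv _ e.symm, ?_⟩
  rw [Nat.card_congr e, Nat.card_prod, Nat.card_fun]

/-- The numbers `[G : N]` for the finite index normal subgroups `N` such that the images of `x` and
`y` in `G / N` are not conjugate. -/
def Sep {G : Type*} [Group G] (x y : G) : Set ℕ :=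
  {d | ∃ N : Subgroup G, ∃ _ : N.Normal, N.index ≠ 0 ∧ N.index = d ∧
    ¬ IsConj (QuotientGroup.mk x : G ⧸ N) (QuotientGroup.mk y : G ⧸ N)}

theorem sep_of_hom {G H : Type*} [Group G] [Group H] [Finite H] (f : G →* H) {x y : G}
    (h : ¬ IsConj (f x) (f y)) : ∃ d ∈ Sep x y, d ≤ Nat.card H := by
  have h1 : f.ker.index = Nat.card f.range := Subgroup.index_ker f
  refine ⟨f.ker.index, ⟨f.ker, inferInstance, ?_, rfl, ?_⟩, ?_⟩
  · rw [h1]
    exact Nat.card_pos.ne'
  · intro hc
    apply h
    have h2 := (QuotientGroup.kerLift f).map_isConj hc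
    exact h2
  · rw [h1]
    exact Nat.card_le_card_of_injective (Subtype.val : f.range → H) Subtype.val_injective

/-- The elements which are products of `n` generators or inverses of generators. -/
def IsProd {G : Type*} [Group G] (S : Finset G) (n : ℕ) (g : G) : Prop :=
  ∃ l : List G, l.length = n ∧ (∀ s ∈ l, s ∈ S ∨ s⁻¹ ∈ S) ∧ l.prod = g

theorem bd_of_prod {R : Type*} [AddCommGroup R] (N : Norm' R) {k : ℕ}
    (S : Finset (Wr R (Fin k → ℤ))) :
    ∃ c : ℕ, 0 < c ∧ ∀ n g, IsProd S n g → Bd N (c * n) g := by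
  classical
  choose β hβ using exists_Bd (k := k) N
  set c := ∑ s ∈ S, (β s + β s⁻¹) + 1 with hc
  refine ⟨c, by omega, ?_⟩
  have hgen : ∀ s, (s ∈ S ∨ s⁻¹ ∈ S) → Bd N c s := by
    rintro s (hs | hs)
    · refine (hβ s).mono N ?_
      have := single_le_sum (f := fun s => β s + β s⁻¹) (fun _ _ => Nat.zero_le _) hs
      omega
    · refine (hβ s).mono N ?_
      have := single_le_sum (f := fun s => β s + β s⁻¹) (fun _ _ => Nat.zero_le _) hs
      simp only [inv_inv] at this
      omega
  rintro n g ⟨l, hl, hs, rfl⟩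
  rw [← hl]
  clear hl
  induction l with
  | nil => rw [List.prod_nil, List.length_nil, mul_zero]; exact Bd.one N
  | cons a l ih =>
    rw [List.prod_cons, List.length_cons]
    have h1 := hgen a (hs a List.mem_cons_self)
    have h2 := ih (fun s hs' => hs s (List.mem_cons_of_mem _ hs'))
    exact (h1.mul N h2).mono N (by ring_nf; omega)

theorem isProd_mono {R : Type*} [AddCommGroup R] (N : Norm' R) {k c : ℕ}
    {S : Finset (Wr R (Fin k → ℤ))} (hc : ∀ n g, IsProd S n g → Bd N (c * n) g) {n n' : ℕ}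
    (h : n' ≤ n) {g : Wr R (Fin k → ℤ)} (hg : IsProd S n' g) : Bd N (c * n) g :=
  (hc _ _ hg).mono N (Nat.mul_le_mul_left c h)

/-- The bound for the index. -/
theorem sep_bound {R R' : Type*} [AddCommGroup R] [AddCommGroup R'] [Finite R'] (N : Norm' R)
    {k ρ : ℕ} (hρ : 0 < ρ) (r : R →+ R') (hr : ∀ a, N.ν a ≤ 2 * ρ → r a = 0 → a = 0)
    {x y : Wr R (Fin k → ℤ)} (hx : Bd N ρ x) (hy : Bd N ρ y) (hxy : ¬ IsConj x y) :
    ∃ d ∈ Sep x y, d ≤ Nat.card R' ^ ((13 * ρ) ^ k) * (13 * ρ) ^ k := by
  obtain ⟨L, hfin, hcard, hnc⟩ := core N hρ r hr hx hy hxy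
  obtain ⟨hf, hc⟩ := card_wr (R := R') (Q := (Fin k → ℤ) ⧸ L)
  obtain ⟨d, hd1, hd2⟩ := sep_of_hom _ hnc
  refine ⟨d, hd1, hd2.trans ?_⟩
  rw [hc]
  exact Nat.mul_le_mul (Nat.pow_le_pow_right Nat.card_pos hcard) hcard

end Q27.CD
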