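import Pool.Agent.Q27.CD.Main
import Pool.Agent.Q27.CD.Hash

/-!
# Small finite quotients of `R ≀ ℤ^k` which distinguish conjugacy classes
-/

set_option autoImplicit false

namespace Q27.CD

open Finset

section

variable {R : Type*} [AddCommGroup R]

/-- The quotient by the multiples of `b`. -/
abbrev qb {k : ℕ} (b : Fin k → ℤ) : (Fin k → ℤ) →+ (Fin k → ℤ) ⧸ AddSubgroup.zmultiples b :=
  QuotientAddGroup.mk' _

theorem qb_eq {k : ℕ} {b v w : Fin k → ℤ} : qb b v = qb b w ↔ ∃ t : ℤ, v - w = t • b := by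
  rw [← sub_eq_zero, ← map_sub]
  change ((v - w : Fin k → ℤ) : (Fin k → ℤ) ⧸ AddSubgroup.zmultiples b) = 0 ↔ _
  rw [QuotientAddGroup.eq_zero_iff, AddSubgroup.mem_zmultiples_iff]
  exact ⟨fun ⟨t, ht⟩ => ⟨t, ht.symm⟩, fun ⟨t, ht⟩ => ⟨t, ht.symm⟩⟩

theorem mem_Ib_of_mapDomain {k : ℕ} (b : Fin k → ℤ) (h : (Fin k → ℤ) →₀ R)
    (hmap : h.mapDomain (qb b) = 0) : h ∈ Ib R b := by
  classical
  set π := qb b with hπ
  set σ : (Fin k → ℤ) ⧸ AddSubgroup.zmultiples b → (Fin k → ℤ) := fun q =>
    if hq : ∃ v ∈ h.support, π v = q then hq.choose else 0 with hσ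
  have hσ1 : ∀ v ∈ h.support, π (σ (π v)) = π v := by
    intro v hv
    have hq : ∃ v' ∈ h.support, π v' = π v := ⟨v, hv, rfl⟩
    simp only [hσ]
    rw [dif_pos hq]
    exact hq.choose_spec.2
  have hmem := sub_mapDomain_mem b h (fun v => σ (π v)) (by
    intro v hv
    have h3 := hσ1 v hv
    rw [hπ, qb_eq] at h3
    obtain ⟨t, ht⟩ := h3
    refine ⟨-t, ?_⟩
    rw [neg_smul, ← ht]
    abel)
  have hcomp : h.mapDomain (fun v => σ (π v)) = 0 := by
    have e : (fun v => σ (π v)) = σ ∘ π := rfl
    rw [e, Finsupp.mapDomain_comp, hmap, Finsupp.mapDomain_zero]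
  rwa [hcomp, sub_zero] at hmem

/-- The value at an isolated point. -/
theorem isolated {A B B' : Type*} (π : A → B) (q : A → B') (h : A →₀ R) (u : A)
    (h1 : ∀ w ∈ h.support, π w = π u → q w = q u) (h2 : ∀ w, q w = q u → π w = π u) :
    h.mapDomain π (π u) = h.mapDomain q (q u) := by
  classical
  unfold Finsupp.mapDomain
  rw [Finsupp.sum_apply, Finsupp.sum_apply, Finsupp.sum, Finsupp.sum]
  apply sum_congr rfl
  intro w hw
  rw [Finsupp.single_apply, Finsupp.single_apply]
  by_cases h3 : q w = q u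
  · rw [if_pos h3, if_pos (h2 w h3)]
  · rw [if_neg h3, if_neg (fun h4 => h3 (h1 w hw h4))]

theorem card_supp (N : Norm' R) (hN : ∀ a : R, a ≠ 0 → 1 ≤ N.ν a) {A : Type*} (h : A →₀ R) :
    h.support.card ≤ N1 N h := by
  unfold N1
  rw [card_eq_sum_ones]
  apply sum_le_sum
  intro v hv
  exact hN _ (Finsupp.mem_support_iff.1 hv)

end

/-- The constant. -/
def Ck (k : ℕ) : ℕ := 2 * (6 * (k ^ 2 + k + 2) + 1)

theorem core_thin {R R' : Type*} [AddCommGroup R] [AddCommGroup R'] (N : Norm' R)
    (hN : ∀ a : R, a ≠ 0 → 1 ≤ N.ν a) {k ρ : ℕ}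
    (hρ : 0 < ρ) (r : R →+ R') (hr : ∀ a, N.ν a ≤ 2 * ρ → r a = 0 → a = 0)
    {x y : Wr R (Fin k → ℤ)} (hx : Bd N ρ x) (hy : Bd N ρ y) (hxy : ¬ IsConj x y) :
    ∃ L : AddSubgroup (Fin k → ℤ), Finite ((Fin k → ℤ) ⧸ L) ∧
      Nat.card ((Fin k → ℤ) ⧸ L) ≤ Ck k * ρ ^ 3 ∧
      ¬ IsConj (wrMap (QuotientAddGroup.mk' L) r x) (wrMap (QuotientAddGroup.mk' L) r y) := by
  classical
  have hρ1 : ρ ≤ ρ ^ 2 := Nat.le_self_pow (by norm_num) ρ
  have h1ρ : 1 ≤ ρ ^ 2 := Nat.one_le_iff_ne_zero.2 (by positivity)
  by_cases hpos : x.pos = y.pos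
  · set b := x.pos with hb
    set q := qb b with hq
    -- the difference of two shifts
    set h : (Fin k → ℤ) → (Fin k → ℤ) →₀ R := fun c => y.lamp - shift c x.lamp with hh
    have hsub : ∀ c, h c = y.lamp + (-shift c x.lamp) := fun c => sub_eq_add_neg _ _
    have hNh : ∀ c, N1 N (h c) ≤ 2 * ρ := by
      intro c
      rw [hsub]
      refine (N1_add N _ _).trans ?_
      rw [N1_neg, N1_shift, two_mul]
      exact Nat.add_le_add hy.norm hx.norm
    have hne : ∀ c, (h c).mapDomain q ≠ 0 := by
      intro c hc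
      obtain ⟨g, hg⟩ := mem_Ib_of_mapDomain b (h c) hc
      exact hxy (conj_of hpos c g hg)
    have hex : ∀ c, ∃ u ∈ (h c).support, (h c).mapDomain q (q u) ≠ 0 := by
      intro c
      obtain ⟨p, hp⟩ := Finsupp.support_nonempty_iff.2 (hne c)
      have h2 := Finsupp.mapDomain_support hp
      rw [mem_image] at h2
      obtain ⟨u, hu, rfl⟩ := h2
      exact ⟨u, hu, Finsupp.mem_support_iff.1 hp⟩
    choose u hu hu2 using hex
    have hsupp : ∀ c, Box (2 * ρ) c → ∀ v ∈ (h c).support, Box (3 * ρ) v := by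
      intro c hc v hv
      rw [hsub] at hv
      rcases mem_union.1 (Finsupp.support_add hv) with h1 | h1
      · exact (hy.supp v h1).mono (by omega)
      · rw [Finsupp.support_neg] at h1
        have h2 := hc.add (hx.supp _ (supp_shift h1))
        rw [add_sub_cancel] at h2
        exact h2.mono (by omega)
    -- the vectors to be avoided
    set D : (Fin k → ℤ) → Finset (Fin k → ℤ) := fun c => (h c).support.image (fun w => w - u c)
      with hD
    have hDcard : ∀ c, (D c).card ≤ 2 * ρ := fun c =>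
      card_image_le.trans ((card_supp N hN _).trans (hNh c))
    have hDbox : ∀ c, Box (2 * ρ) c → ∀ v ∈ D c, Box (6 * ρ) v := by
      intro c hc v hv
      obtain ⟨w, hw, rfl⟩ := mem_image.1 hv
      exact ((hsupp c hc w hw).sub (hsupp c hc _ (hu c))).mono (by omega)
    -- the main step
    have main : ∀ (L : AddSubgroup (Fin k → ℤ)), b ∈ L → ∀ c,
        (∀ v ∈ D c, v ∈ L → ∃ t : ℤ, v = t • b) →
        push (QuotientAddGroup.mk' L) r y.lamp ≠
          shift (QuotientAddGroup.mk' L c) (push (QuotientAddGroup.mk' L) r x.lamp) := by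
      intro L hbL c hV heq
      set π := QuotientAddGroup.mk' L with hπ
      have hpush : push π r (h c) = 0 := by
        have h1 : push π r (h c) + push π r (shift c x.lamp) = push π r y.lamp := by
          rw [← push_add, hh]
          simp only [sub_add_cancel]
        rw [push_shift, ← heq] at h1
        exact add_eq_right.1 h1
      have h2 : (h c).mapDomain π (π (u c)) = (h c).mapDomain q (q (u c)) := by
        apply isolated
        · intro w hw hw2
          have h3 : w - u c ∈ L := by
            rw [← QuotientAddGroup.eq_zero_iff]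
            change π (w - u c) = 0
            rw [map_sub, hw2, sub_self]
          exact qb_eq.2 (hV _ (mem_image_of_mem _ hw) h3)
        · intro w hw
          obtain ⟨t, ht⟩ := qb_eq.1 hw
          rw [← sub_eq_zero, ← map_sub, ht]
          exact (QuotientAddGroup.eq_zero_iff _).2 (zsmul_mem hbL t)
      apply hu2 c
      rw [← h2]
      apply hr _ ((nu_mapDomain N π (h c) _).trans (hNh c))
      have h3 := DFunLike.congr_fun hpush (π (u c))
      unfold push at h3
      rwa [Finsupp.mapRange_apply] at h3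
    by_cases h0 : x.lamp.mapDomain q = 0
    · obtain ⟨L, hbL, hL, hfin, hcard⟩ := exists_thin hρ (by norm_num : 0 < 6) b hx.pos (D 0)
        (hDbox 0 (fun i => by simp)) ((hDcard 0).trans (by nlinarith))
      refine ⟨L, hfin, hcard, fun hc => ?_⟩
      set π := QuotientAddGroup.mk' L with hπ
      have hx0 : (wrMap π r x).pos = 0 := (QuotientAddGroup.eq_zero_iff _).2 hbL
      obtain ⟨c, hcc⟩ := shift_of_conj hc hx0
      change push π r y.lamp = shift c (push π r x.lamp) at hcc
      have h1 : push π r x.lamp = 0 := by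
        unfold push
        have e : x.lamp.mapDomain π = 0 := by
          have hle : AddSubgroup.zmultiples b ≤ L := (AddSubgroup.zmultiples_le).2 hbL
          set θ : (Fin k → ℤ) ⧸ AddSubgroup.zmultiples b →+ (Fin k → ℤ) ⧸ L :=
            QuotientAddGroup.lift _ π (fun v hv => (QuotientAddGroup.eq_zero_iff _).2 (hle hv))
          have e2 : (π : (Fin k → ℤ) → _) = θ ∘ q := rfl
          rw [e2, Finsupp.mapDomain_comp, h0, Finsupp.mapDomain_zero]
        rw [e, Finsupp.mapRange_zero]
      refine main L hbL 0 hL ?_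
      rw [hcc, h1, shift_zero', shift_zero']
    · obtain ⟨p, hp⟩ := Finsupp.support_nonempty_iff.2 h0
      have h2 := Finsupp.mapDomain_support hp
      rw [mem_image] at h2
      obtain ⟨s, hs, rfl⟩ := h2
      have hs2 := Finsupp.mem_support_iff.1 hp
      set V : Finset (Fin k → ℤ) := x.lamp.support.image (fun w => w - s) ∪
        y.lamp.support.biUnion (fun s' => D (s' - s)) with hV
      have hsmall : ∀ s' ∈ y.lamp.support, Box (2 * ρ) (s' - s) := by
        intro s' hs'
        rw [two_mul]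
        exact (hy.supp _ hs').sub (hx.supp _ hs)
      have hVbox : ∀ v ∈ V, Box (6 * ρ) v := by
        intro v hv
        rcases mem_union.1 hv with h3 | h3
        · obtain ⟨w, hw, rfl⟩ := mem_image.1 h3
          exact ((hx.supp _ hw).sub (hx.supp _ hs)).mono (by omega)
        · obtain ⟨s', hs', hv'⟩ := mem_biUnion.1 h3
          exact hDbox _ (hsmall s' hs') v hv'
      have hVcard : V.card ≤ 6 * ρ ^ 2 := by
        have e1 : (x.lamp.support.image (fun w => w - s)).card ≤ ρ :=
          card_image_le.trans ((card_supp N hN _).trans hx.norm)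
        have e2 : (y.lamp.support.biUnion (fun s' => D (s' - s))).card ≤ ρ * (2 * ρ) := by
          refine card_biUnion_le.trans ?_
          refine (sum_le_sum (fun s' _ => hDcard (s' - s))).trans ?_
          rw [sum_const, smul_eq_mul]
          exact Nat.mul_le_mul_right _ ((card_supp N hN _).trans hy.norm)
        refine (card_union_le _ _).trans ?_
        nlinarith
      obtain ⟨L, hbL, hL, hfin, hcard⟩ := exists_thin hρ (by norm_num : 0 < 6) b hx.pos V hVbox
        hVcard
      refine ⟨L, hfin, hcard, fun hc => ?_⟩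
      set π := QuotientAddGroup.mk' L with hπ
      have hx0 : (wrMap π r x).pos = 0 := (QuotientAddGroup.eq_zero_iff _).2 hbL
      obtain ⟨c, hcc⟩ := shift_of_conj hc hx0
      change push π r y.lamp = shift c (push π r x.lamp) at hcc
      have h3 : x.lamp.mapDomain π (π s) = x.lamp.mapDomain q (q s) := by
        apply isolated
        · intro w hw hw2
          have h3 : w - s ∈ L := by
            rw [← QuotientAddGroup.eq_zero_iff]
            change π (w - s) = 0
            rw [map_sub, hw2, sub_self]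
          exact qb_eq.2 (hL _ (mem_union_left _ (mem_image_of_mem _ hw)) h3)
        · intro w hw
          obtain ⟨t, ht⟩ := qb_eq.1 hw
          rw [← sub_eq_zero, ← map_sub, ht]
          exact (QuotientAddGroup.eq_zero_iff _).2 (zsmul_mem hbL t)
      have h4 : push π r x.lamp (π s) ≠ 0 := by
        unfold push
        rw [Finsupp.mapRange_apply, h3]
        intro h5
        apply hs2
        exact hr _ ((nu_mapDomain N q x.lamp _).trans (hx.norm.trans (by omega))) h5
      have h5 : push π r y.lamp (c + π s) ≠ 0 := by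
        rw [hcc, shift_apply]
        exact h4
      have h6 : y.lamp.mapDomain π (c + π s) ≠ 0 := by
        intro h7
        apply h5
        unfold push
        rw [Finsupp.mapRange_apply, h7, map_zero]
      have h7 := Finsupp.mapDomain_support (Finsupp.mem_support_iff.2 h6)
      rw [mem_image] at h7
      obtain ⟨s', hs', hs2'⟩ := h7
      have h8 : c = π (s' - s) := by
        rw [map_sub]
        change c = π s' - π s
        rw [hs2', add_sub_cancel_right]
      refine main L hbL (s' - s) (fun v hv hvL => hL v (mem_union_right _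
        (mem_biUnion.2 ⟨s', hs', hv⟩)) hvL) ?_
      rw [← h8]
      exact hcc
  · obtain ⟨L, -, hL, hfin, hcard⟩ := exists_thin (k := k) hρ (by norm_num : 0 < 6) 0
      (fun i => by simp) {x.pos - y.pos} (by
        intro v hv
        rw [mem_singleton] at hv
        rw [hv]
        exact (hx.pos.sub hy.pos).mono (by omega)) (by rw [card_singleton]; omega)
    refine ⟨L, hfin, hcard, fun hc => hpos ?_⟩
    have h1 := conj_pos hc
    change QuotientAddGroup.mk' L x.pos = QuotientAddGroup.mk' L y.pos at h1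
    have h2 : x.pos - y.pos ∈ L := by
      rw [← QuotientAddGroup.eq_zero_iff]
      change QuotientAddGroup.mk' L (x.pos - y.pos) = 0
      rw [map_sub, h1, sub_self]
    obtain ⟨t, ht⟩ := hL _ (mem_singleton_self _) h2
    rw [smul_zero] at ht
    exact sub_eq_zero.1 ht

/-- The bound for the index. -/
theorem sep_thin {R R' : Type*} [AddCommGroup R] [AddCommGroup R'] [Finite R'] (N : Norm' R)
    (hN : ∀ a : R, a ≠ 0 → 1 ≤ N.ν a)
    {k ρ : ℕ} (hρ : 0 < ρ) (r : R →+ R') (hr : ∀ a, N.ν a ≤ 2 * ρ → r a = 0 → a = 0)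
    {x y : Wr R (Fin k → ℤ)} (hx : Bd N ρ x) (hy : Bd N ρ y) (hxy : ¬ IsConj x y) :
    ∃ d ∈ Sep x y, d ≤ Nat.card R' ^ (Ck k * ρ ^ 3) * (Ck k * ρ ^ 3) := by
  obtain ⟨L, hfin, hcard, hnc⟩ := core_thin N hN hρ r hr hx hy hxy
  obtain ⟨hf, hc⟩ := card_wr (R := R') (Q := (Fin k → ℤ) ⧸ L)
  obtain ⟨d, hd1, hd2⟩ := sep_of_hom _ hnc
  refine ⟨d, hd1, hd2.trans ?_⟩
  rw [hc]
  exact Nat.mul_le_mul (Nat.pow_le_pow_right Nat.card_pos hcard) hcard

end Q27.CD
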