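import Mathlib

/-!
# Conjugacy in wreath products `R ≀ Q` and their finite quotients
-/

set_option autoImplicit false

namespace Q27.CD

open Finset

/-- The restricted wreath product `R ≀ Q = R[Q] ⋊ Q` of two abelian groups. -/
@[ext] structure Wr (R Q : Type*) [AddCommGroup R] [AddCommGroup Q] where
  /-- the element of `R[Q]` -/
  lamp : Q →₀ R
  /-- the element of `Q` -/
  pos : Q

section

variable {R Q : Type*} [AddCommGroup R] [AddCommGroup Q]

/-- The shift `X^b f`. -/
noncomputable def shift (b : Q) (f : Q →₀ R) : Q →₀ R := f.mapDomain (fun e => b + e)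

theorem shift_zero (f : Q →₀ R) : shift 0 f = f := by
  unfold shift
  simp only [zero_add]
  exact Finsupp.mapDomain_id

theorem shift_shift (b c : Q) (f : Q →₀ R) : shift b (shift c f) = shift (b + c) f := by
  unfold shift
  rw [← Finsupp.mapDomain_comp]
  congr 1
  funext e
  simp only [Function.comp_apply, add_assoc]

theorem shift_add (b : Q) (f g : Q →₀ R) : shift b (f + g) = shift b f + shift b g :=
  Finsupp.mapDomain_add

theorem shift_zero' (b : Q) : shift b (0 : Q →₀ R) = 0 := Finsupp.mapDomain_zero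

theorem shift_neg (b : Q) (f : Q →₀ R) : shift b (-f) = -shift b f := by
  rw [eq_neg_iff_add_eq_zero, ← shift_add, neg_add_cancel, shift_zero']

theorem shift_sub (b : Q) (f g : Q →₀ R) : shift b (f - g) = shift b f - shift b g := by
  rw [sub_eq_add_neg, shift_add, shift_neg, ← sub_eq_add_neg]

theorem shift_apply (b : Q) (f : Q →₀ R) (e : Q) : shift b f (b + e) = f e :=
  Finsupp.mapDomain_apply (add_right_injective b) f e

theorem shift_apply' (b : Q) (f : Q →₀ R) (e : Q) : shift b f e = f (e - b) := by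
  conv_lhs => rw [← add_sub_cancel b e]
  rw [shift_apply]

theorem shift_single (b v : Q) (r : R) :
    shift b (Finsupp.single v r) = Finsupp.single (b + v) r := Finsupp.mapDomain_single

noncomputable instance : Group (Wr R Q) where
  mul x y := ⟨x.lamp + shift x.pos y.lamp, x.pos + y.pos⟩
  one := ⟨0, 0⟩
  inv x := ⟨-shift (-x.pos) x.lamp, -x.pos⟩
  mul_assoc x y z := by
    apply Wr.ext
    · change (x.lamp + shift x.pos y.lamp) + shift (x.pos + y.pos) z.lamp
        = x.lamp + shift x.pos (y.lamp + shift y.pos z.lamp)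
      rw [shift_add, shift_shift, add_assoc]
    · exact add_assoc _ _ _
  one_mul x := by
    apply Wr.ext
    · change 0 + shift 0 x.lamp = x.lamp
      rw [shift_zero, zero_add]
    · exact zero_add _
  mul_one x := by
    apply Wr.ext
    · change x.lamp + shift x.pos 0 = x.lamp
      rw [shift_zero', add_zero]
    · exact add_zero _
  inv_mul_cancel x := by
    apply Wr.ext
    · change -shift (-x.pos) x.lamp + shift (-x.pos) x.lamp = 0
      rw [neg_add_cancel]
    · exact neg_add_cancel _

theorem mul_lamp (x y : Wr R Q) : (x * y).lamp = x.lamp + shift x.pos y.lamp := rfl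
theorem mul_pos' (x y : Wr R Q) : (x * y).pos = x.pos + y.pos := rfl
theorem one_lamp : (1 : Wr R Q).lamp = 0 := rfl
theorem one_pos : (1 : Wr R Q).pos = 0 := rfl

theorem conj_pos {x y : Wr R Q} (h : IsConj x y) : x.pos = y.pos := by
  rw [isConj_iff] at h
  obtain ⟨c, hc⟩ := h
  have h1 : c * x = y * c := by rw [← hc, inv_mul_cancel_right]
  have h2 := congrArg Wr.pos h1
  rw [mul_pos', mul_pos', add_comm] at h2
  exact add_right_cancel h2

theorem conj_of {x y : Wr R Q} (hp : x.pos = y.pos) (c : Q) (g : Q →₀ R)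
    (h : y.lamp - shift c x.lamp = g - shift x.pos g) : IsConj x y := by
  rw [isConj_iff]
  refine ⟨⟨g, c⟩, ?_⟩
  rw [mul_inv_eq_iff_eq_mul]
  apply Wr.ext
  · rw [mul_lamp, mul_lamp, ← hp]
    change g + shift c x.lamp = y.lamp + shift x.pos g
    rw [sub_eq_sub_iff_add_eq_add] at h
    rw [← h]
  · rw [mul_pos', mul_pos', hp, add_comm]

theorem shift_of_conj {x y : Wr R Q} (h : IsConj x y) (hx : x.pos = 0) :
    ∃ c, y.lamp = shift c x.lamp := by
  have hy := conj_pos h
  rw [isConj_iff] at h
  obtain ⟨c, hc⟩ := h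
  have h1 : c * x = y * c := by rw [← hc, inv_mul_cancel_right]
  have h2 := congrArg Wr.lamp h1
  rw [mul_lamp, mul_lamp, ← hy, hx, shift_zero, add_comm] at h2
  exact ⟨c.pos, (add_right_cancel h2).symm⟩

/-! ### The ideal of `1 - X^b` -/

/-- The multiples of `1 - X^b`. -/
def Ib (R : Type*) [AddCommGroup R] (b : Q) : AddSubgroup (Q →₀ R) where
  carrier := {h | ∃ g : Q →₀ R, h = g - shift b g}
  zero_mem' := ⟨0, by rw [shift_zero', sub_zero]⟩
  add_mem' := by
    rintro _ _ ⟨g, rfl⟩ ⟨g', rfl⟩
    exact ⟨g + g', by rw [shift_add]; abel⟩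
  neg_mem' := by
    rintro _ ⟨g, rfl⟩
    exact ⟨-g, by rw [shift_neg]; abel⟩

theorem single_mem_Ib (b v : Q) (r : R) (t : ℤ) :
    Finsupp.single (v + t • b) r - Finsupp.single v r ∈ Ib R b := by
  have step : ∀ u : Q, Finsupp.single (u + b) r - Finsupp.single u r ∈ Ib R b := by
    intro u
    refine ⟨-Finsupp.single u r, ?_⟩
    rw [shift_neg, shift_single, add_comm b u]
    abel
  induction t using Int.induction_on with
  | zero =>
    rw [zero_smul, add_zero, sub_self]
    exact zero_mem _
  | succ t ih =>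
    have h1 := step (v + (t : ℤ) • b)
    have h2 := add_mem h1 ih
    rw [add_smul, one_smul, ← add_assoc]
    have e : Finsupp.single (v + (t : ℤ) • b + b) r - Finsupp.single (v + (t : ℤ) • b) r +
        (Finsupp.single (v + (t : ℤ) • b) r - Finsupp.single v r) =
        Finsupp.single (v + (t : ℤ) • b + b) r - Finsupp.single v r := by abel
    rwa [e] at h2
  | pred t ih =>
    have h1 := step (v + (-(t : ℤ) - 1) • b)
    have e1 : v + (-(t : ℤ) - 1) • b + b = v + (-(t : ℤ)) • b := by
      rw [sub_smul, one_smul]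
      abel
    rw [e1] at h1
    have h2 := sub_mem ih h1
    have e : (Finsupp.single (v + (-(t : ℤ)) • b) r - Finsupp.single v r) -
        (Finsupp.single (v + (-(t : ℤ)) • b) r - Finsupp.single (v + (-(t : ℤ) - 1) • b) r) =
        Finsupp.single (v + (-(t : ℤ) - 1) • b) r - Finsupp.single v r := by abel
    rwa [e] at h2

/-- If `ρ` moves every point of the support by a multiple of `b`. -/
theorem sub_mapDomain_mem (b : Q) (h : Q →₀ R) (ρ : Q → Q)
    (hρ : ∀ v ∈ h.support, ∃ t : ℤ, v = ρ v + t • b) : h - h.mapDomain ρ ∈ Ib R b := by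
  have e : h - h.mapDomain ρ =
      ∑ v ∈ h.support, (Finsupp.single v (h v) - Finsupp.single (ρ v) (h v)) := by
    rw [Finset.sum_sub_distrib]
    congr 1
    exact (Finsupp.sum_single h).symm
  rw [e]
  apply sum_mem
  intro v hv
  obtain ⟨t, ht⟩ := hρ v hv
  have h1 := single_mem_Ib b (ρ v) (h v) t
  rwa [← ht] at h1

end

/-! ### Maps -/

section maps

variable {R R' Q Q' : Type*} [AddCommGroup R] [AddCommGroup R'] [AddCommGroup Q]
  [AddCommGroup Q']

/-- The map of group rings. -/
noncomputable def push (π : Q →+ Q') (r : R →+ R') (f : Q →₀ R) : Q' →₀ R' :=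
  (f.mapDomain π).mapRange r (map_zero r)

theorem push_add (π : Q →+ Q') (r : R →+ R') (f g : Q →₀ R) :
    push π r (f + g) = push π r f + push π r g := by
  unfold push
  rw [Finsupp.mapDomain_add, Finsupp.mapRange_add (fun a b => map_add r a b)]

theorem push_shift (π : Q →+ Q') (r : R →+ R') (b : Q) (f : Q →₀ R) :
    push π r (shift b f) = shift (π b) (push π r f) := by
  unfold push shift
  rw [← Finsupp.mapDomain_comp]
  have e : (π ∘ fun e => b + e) = (fun e => π b + e) ∘ π := by
    funext e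
    simp
  rw [e, Finsupp.mapDomain_comp, Finsupp.mapDomain_mapRange]
  intro x y
  exact map_add r x y

/-- The induced homomorphism of wreath products. -/
noncomputable def wrMap (π : Q →+ Q') (r : R →+ R') : Wr R Q →* Wr R' Q' where
  toFun x := ⟨push π r x.lamp, π x.pos⟩
  map_one' := by
    apply Wr.ext
    · change push π r 0 = 0
      unfold push
      rw [Finsupp.mapDomain_zero, Finsupp.mapRange_zero]
    · exact map_zero π
  map_mul' x y := by
    apply Wr.ext
    · change push π r (x.lamp + shift x.pos y.lamp) =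
        push π r x.lamp + shift (π x.pos) (push π r y.lamp)
      rw [push_add, push_shift]
    · exact map_add π _ _

end maps

/-! ### Size of elements -/

/-- A length function on the abelian group `R`. -/
structure Norm' (R : Type*) [AddCommGroup R] where
  /-- the function -/
  ν : R → ℕ
  zero : ν 0 = 0
  add : ∀ a b, ν (a + b) ≤ ν a + ν b
  neg : ∀ a, ν (-a) = ν a

section size

variable {R : Type*} [AddCommGroup R] (N : Norm' R) {k : ℕ}

/-- The `ℓ¹` norm. -/
noncomputable def N1 {Q : Type*} (f : Q →₀ R) : ℕ := ∑ v ∈ f.support, N.ν (f v)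

theorem N1_eq {Q : Type*} (f : Q →₀ R) {s : Finset Q} (hs : f.support ⊆ s) :
    N1 N f = ∑ v ∈ s, N.ν (f v) := by
  unfold N1
  apply sum_subset hs
  intro v _ hv
  rw [Finsupp.notMem_support_iff.1 hv, N.zero]

theorem N1_add {Q : Type*} (f g : Q →₀ R) : N1 N (f + g) ≤ N1 N f + N1 N g := by
  classical
  rw [N1_eq N (f + g) (s := f.support ∪ g.support) Finsupp.support_add,
    N1_eq N f (s := f.support ∪ g.support) subset_union_left,
    N1_eq N g (s := f.support ∪ g.support) subset_union_right, ← sum_add_distrib]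
  apply sum_le_sum
  intro v _
  rw [Finsupp.add_apply]
  exact N.add _ _

theorem N1_neg {Q : Type*} (f : Q →₀ R) : N1 N (-f) = N1 N f := by
  unfold N1
  rw [Finsupp.support_neg]
  apply sum_congr rfl
  intro v _
  rw [Finsupp.neg_apply, N.neg]

theorem N1_shift {Q : Type*} [AddCommGroup Q] (b : Q) (f : Q →₀ R) :
    N1 N (shift b f) = N1 N f := by
  unfold N1
  symm
  apply sum_bij (fun v _ => b + v)
  · intro v hv
    rw [Finsupp.mem_support_iff, shift_apply]
    exact Finsupp.mem_support_iff.1 hv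
  · intro v _ w _ h
    exact add_left_cancel h
  · intro w hw
    refine ⟨w - b, ?_, by abel⟩
    rw [Finsupp.mem_support_iff, ← shift_apply' b]
    exact Finsupp.mem_support_iff.1 hw
  · intro v _
    rw [shift_apply]

theorem nu_sum {ι : Type*} (s : Finset ι) (g : ι → R) : N.ν (∑ i ∈ s, g i) ≤ ∑ i ∈ s, N.ν (g i) := by
  classical
  induction s using Finset.induction_on with
  | empty => rw [sum_empty, sum_empty, N.zero]
  | insert a s ha ih =>
    rw [sum_insert ha, sum_insert ha]
    exact (N.add _ _).trans (Nat.add_le_add_left ih _)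

theorem nu_mapDomain {Q Q' : Type*} (π : Q → Q') (h : Q →₀ R) (q : Q') :
    N.ν (h.mapDomain π q) ≤ N1 N h := by
  classical
  unfold Finsupp.mapDomain
  rw [Finsupp.sum_apply, Finsupp.sum]
  refine (nu_sum N _ _).trans ?_
  unfold N1
  apply sum_le_sum
  intro v _
  rw [Finsupp.single_apply]
  split_ifs
  · exact le_rfl
  · rw [N.zero]; exact Nat.zero_le _

/-- The box. -/
def Box {k : ℕ} (ρ : ℕ) (v : Fin k → ℤ) : Prop := ∀ i, |v i| ≤ ρ

theorem Box.add {ρ σ : ℕ} {v w : Fin k → ℤ} (hv : Box ρ v) (hw : Box σ w) :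
    Box (ρ + σ) (v + w) := by
  intro i
  rw [Pi.add_apply, Nat.cast_add]
  exact (abs_add_le _ _).trans (add_le_add (hv i) (hw i))

theorem Box.neg {ρ : ℕ} {v : Fin k → ℤ} (hv : Box ρ v) : Box ρ (-v) := by
  intro i
  rw [Pi.neg_apply, abs_neg]
  exact hv i

theorem Box.sub {ρ σ : ℕ} {v w : Fin k → ℤ} (hv : Box ρ v) (hw : Box σ w) :
    Box (ρ + σ) (v - w) := by
  rw [sub_eq_add_neg]
  exact hv.add hw.neg

theorem Box.mono {ρ σ : ℕ} {v : Fin k → ℤ} (hv : Box ρ v) (h : ρ ≤ σ) : Box σ v := by
  intro i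
  exact (hv i).trans (by exact_mod_cast h)

/-- Elements of size at most `ρ`. -/
structure Bd (ρ : ℕ) (x : Wr R (Fin k → ℤ)) : Prop where
  pos : Box ρ x.pos
  supp : ∀ v ∈ x.lamp.support, Box ρ v
  norm : N1 N x.lamp ≤ ρ

theorem Bd.mono {ρ σ : ℕ} {x : Wr R (Fin k → ℤ)} (hx : Bd N ρ x) (h : ρ ≤ σ) : Bd N σ x :=
  ⟨hx.pos.mono h, fun v hv => (hx.supp v hv).mono h, hx.norm.trans h⟩

theorem Bd.one : Bd N 0 (1 : Wr R (Fin k → ℤ)) := by
  refine ⟨?_, ?_, ?_⟩
  · intro i
    rw [one_pos, Pi.zero_apply, abs_zero]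
    simp
  · intro v hv
    rw [one_lamp, Finsupp.support_zero] at hv
    exact absurd hv (notMem_empty _)
  · unfold N1
    rw [one_lamp, Finsupp.support_zero, sum_empty]

theorem supp_shift {Q : Type*} [AddCommGroup Q] {b : Q} {f : Q →₀ R} {v : Q}
    (hv : v ∈ (shift b f).support) : v - b ∈ f.support := by
  rw [Finsupp.mem_support_iff, shift_apply'] at hv
  exact Finsupp.mem_support_iff.2 hv

theorem Bd.mul {ρ σ : ℕ} {x y : Wr R (Fin k → ℤ)} (hx : Bd N ρ x) (hy : Bd N σ y) :
    Bd N (ρ + σ) (x * y) := by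
  classical
  refine ⟨hx.pos.add hy.pos, ?_, ?_⟩
  · intro v hv
    rw [mul_lamp] at hv
    rcases mem_union.1 (Finsupp.support_add hv) with h | h
    · exact (hx.supp v h).mono (Nat.le_add_right _ _)
    · have h1 := hx.pos.add (hy.supp _ (supp_shift h))
      rwa [add_sub_cancel] at h1
  · rw [mul_lamp]
    refine (N1_add N _ _).trans ?_
    rw [N1_shift]
    exact Nat.add_le_add hx.norm hy.norm

theorem exists_Bd (x : Wr R (Fin k → ℤ)) : ∃ ρ, Bd N ρ x := by
  have hbox : ∀ v : Fin k → ℤ, ∃ ρ, Box ρ v := by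
    intro v
    refine ⟨∑ i, (v i).natAbs, fun i => ?_⟩
    rw [Int.abs_eq_natAbs]
    exact_mod_cast single_le_sum (f := fun i => (v i).natAbs) (fun _ _ => Nat.zero_le _)
      (mem_univ i)
  choose β hβ using hbox
  refine ⟨β x.pos + ∑ v ∈ x.lamp.support, β v + N1 N x.lamp, ?_, ?_, ?_⟩
  · exact (hβ _).mono (by omega)
  · intro v hv
    refine (hβ v).mono ?_
    have := single_le_sum (f := β) (fun _ _ => Nat.zero_le _) hv
    omega
  · omega

end size

/-! ### Lattices -/

/-- For every `b` in the box there is a subgroup `L ∋ b` of small index which meets a large box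
only in the multiples of `b`. -/
theorem exists_lattice {k : ℕ} (ρ : ℕ) (hρ : 0 < ρ) (b : Fin k → ℤ) (hb : Box ρ b) :
    ∃ L : AddSubgroup (Fin k → ℤ), b ∈ L ∧ (∀ v ∈ L, Box (6 * ρ) v → ∃ t : ℤ, v = t • b) ∧
      Finite ((Fin k → ℤ) ⧸ L) ∧ Nat.card ((Fin k → ℤ) ⧸ L) ≤ (13 * ρ) ^ k := by
  set M : ℕ := 12 * ρ + 1 with hM
  -- surjectivity from the box gives the bound
  have bound : ∀ L : AddSubgroup (Fin k → ℤ),
      (∀ v : Fin k → ℤ, ∃ w : Fin k → Fin M, v - (fun i => ((w i : ℕ) : ℤ)) ∈ L) →
      Finite ((Fin k → ℤ) ⧸ L) ∧ Nat.card ((Fin k → ℤ) ⧸ L) ≤ (13 * ρ) ^ k := by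
    intro L hL
    have hsurj : Function.Surjective (fun w : Fin k → Fin M =>
        ((fun i => ((w i : ℕ) : ℤ) : Fin k → ℤ) : (Fin k → ℤ) ⧸ L)) := by
      intro q
      obtain ⟨v, rfl⟩ := QuotientAddGroup.mk_surjective q
      obtain ⟨w, hw⟩ := hL v
      refine ⟨w, ?_⟩
      rw [QuotientAddGroup.eq]
      have e : -(fun i => ((w i : ℕ) : ℤ)) + v = v - (fun i => ((w i : ℕ) : ℤ)) := by abel
      rwa [e]
    refine ⟨Finite.of_surjective _ hsurj, ?_⟩
    refine (Nat.card_le_card_of_surjective _ hsurj).trans ?_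
    rw [Nat.card_eq_fintype_card, Fintype.card_fun, Fintype.card_fin, Fintype.card_fin]
    exact Nat.pow_le_pow_left (by omega) k
  have hMpos : (0 : ℤ) < (M : ℤ) := by omega
  -- residues modulo `M`
  have hres : ∀ a : ℤ, ∃ w : Fin M, (M : ℤ) ∣ a - ((w : ℕ) : ℤ) := by
    intro a
    have h1 := Int.emod_nonneg a hMpos.ne'
    have h2 := Int.emod_lt_of_pos a hMpos
    refine ⟨⟨(a % M).toNat, by omega⟩, ?_⟩
    simp only
    rw [Int.toNat_of_nonneg h1]
    exact Int.dvd_self_sub_emod
  by_cases hb0 : b = 0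
  · refine ⟨{ carrier := {v | ∀ i, (M : ℤ) ∣ v i}, zero_mem' := fun i => dvd_zero _,
              add_mem' := fun ha hb i => dvd_add (ha i) (hb i),
              neg_mem' := fun ha i => (dvd_neg).2 (ha i) }, ?_, ?_, bound _ ?_⟩
    · rw [hb0]
      exact fun i => dvd_zero _
    · intro v hv hbox
      refine ⟨0, ?_⟩
      rw [zero_smul]
      funext i
      have h1 : (M : ℤ) ∣ v i := hv i
      have h2 := hbox i
      apply Int.eq_zero_of_abs_lt_dvd h1
      push_cast at h2
      omega
    · intro v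
      choose w hw using fun i => hres (v i)
      exact ⟨w, hw⟩
  · -- the largest coordinate
    have hk : (univ : Finset (Fin k)).Nonempty := by
      by_contra hcon
      apply hb0
      funext i
      exact absurd ⟨i, mem_univ i⟩ hcon
    obtain ⟨i0, -, hi0⟩ := exists_max_image univ (fun i => |b i|) hk
    have hbi : b i0 ≠ 0 := by
      intro h
      apply hb0
      funext i
      have h1 := hi0 i (mem_univ i)
      rw [h, abs_zero] at h1
      exact abs_eq_zero.1 (le_antisymm h1 (abs_nonneg _))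
    refine ⟨{ carrier := {v | ∃ t : ℤ, v i0 = t * b i0 ∧ ∀ i, (M : ℤ) ∣ v i - t * b i},
              zero_mem' := ⟨0, by simp, fun i => by simp⟩,
              add_mem' := ?_, neg_mem' := ?_ }, ?_, ?_, bound _ ?_⟩
    · rintro v w ⟨t, h1, h2⟩ ⟨u, h3, h4⟩
      refine ⟨t + u, ?_, fun i => ?_⟩
      · rw [Pi.add_apply, h1, h3]; ring
      · have e : (v + w) i - (t + u) * b i = (v i - t * b i) + (w i - u * b i) := by
          rw [Pi.add_apply]; ring
        rw [e]
        exact dvd_add (h2 i) (h4 i)
    · rintro v ⟨t, h1, h2⟩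
      refine ⟨-t, ?_, fun i => ?_⟩
      · rw [Pi.neg_apply, h1]; ring
      · have e : (-v) i - (-t) * b i = -(v i - t * b i) := by
          rw [Pi.neg_apply]; ring
        rw [e]
        exact (dvd_neg).2 (h2 i)
    · exact ⟨1, by ring, fun i => by simp⟩
    · rintro v ⟨t, h1, h2⟩ hbox
      refine ⟨t, ?_⟩
      funext i
      have h3 := hbox i0
      rw [h1, abs_mul] at h3
      have h4 : |t * b i| ≤ |t| * |b i0| := by
        rw [abs_mul]
        exact mul_le_mul_of_nonneg_left (hi0 i (mem_univ i)) (abs_nonneg _)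
      have h5 : |v i - t * b i| ≤ |v i| + |t * b i| := by
        rw [sub_eq_add_neg]
        refine (abs_add_le _ _).trans ?_
        rw [abs_neg]
      have h6 := hbox i
      have h7 : v i - t * b i = 0 := by
        apply Int.eq_zero_of_abs_lt_dvd (h2 i)
        push_cast at h3 h6 ⊢
        omega
      rw [Pi.smul_apply, smul_eq_mul]
      omega
    · intro v
      set t : ℤ := v i0 / b i0 with ht
      have hr1 := Int.emod_nonneg (v i0) hbi
      have hr2 := Int.emod_lt_abs (v i0) hbi
      have hbρ := hb i0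
      have hmod : v i0 % b i0 < M := by omega
      choose w hw using fun i => hres (v i - t * b i)
      refine ⟨fun i => if i = i0 then ⟨(v i0 % b i0).toNat, by omega⟩ else w i, t, ?_, ?_⟩
      · simp only [Pi.sub_apply, if_true]
        rw [Int.toNat_of_nonneg hr1]
        have := Int.emod_add_mul_ediv (v i0) (b i0)
        rw [ht]
        linarith
      · intro i
        by_cases hi : i = i0
        · rw [hi]
          simp only [Pi.sub_apply, if_true]
          rw [Int.toNat_of_nonneg hr1]
          have := Int.emod_add_mul_ediv (v i0) (b i0)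
          have e : v i0 - v i0 % b i0 - t * b i0 = 0 := by
            rw [ht]
            linarith
          rw [e]
          exact dvd_zero _
        · simp only [Pi.sub_apply, if_neg hi]
          have e : v i - ((w i : ℕ) : ℤ) - t * b i = v i - t * b i - ((w i : ℕ) : ℤ) := by ring
          rw [e]
          exact hw i

end Q27.CD
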